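import Pool.Agent.U174.AK.Stm

set_option autoImplicit false

namespace Pool.Agent.U317.AKNice

open IsLocalRing Polynomial Filter
open Pool.Agent.U174.AK

section
variable {K : Type} [Field K] (P : ValuationSubring K)

/-- the group of values of a subfield -/
def VG (E : Subfield K) : Subgroup P.ValueGroupˣ where
  carrier := {γ | ∃ x ∈ E, P.valuation x = (γ : P.ValueGroup)}
  mul_mem' := by
    rintro a b ⟨x, hx, hxa⟩ ⟨y, hy, hyb⟩
    exact ⟨x * y, E.mul_mem hx hy, by rw [map_mul, hxa, hyb, Units.val_mul]⟩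
  one_mem' := ⟨1, E.one_mem, by simp⟩
  inv_mem' := by
    rintro a ⟨x, hx, hxa⟩
    exact ⟨x⁻¹, E.inv_mem hx, by rw [map_inv₀, hxa, Units.val_inv_eq_inv_val]⟩

theorem mem_VG (E : Subfield K) (γ : P.ValueGroupˣ) :
    γ ∈ VG P E ↔ ∃ x ∈ E, P.valuation x = (γ : P.ValueGroup) := Iff.rfl

theorem VG_mono {E E' : Subfield K} (h : E ≤ E') : VG P E ≤ VG P E' := by
  rintro γ ⟨x, hx, hxγ⟩
  exact ⟨x, h hx, hxγ⟩

theorem VG_countable (E : Subfield K) (hE : Countable E) : Countable (VG P E) := by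
  have hch : ∀ γ : VG P E, ∃ x : E, P.valuation (x : K) = ((γ : P.ValueGroupˣ) : P.ValueGroup) := by
    rintro ⟨γ, x, hx, hxγ⟩
    exact ⟨⟨x, hx⟩, hxγ⟩
  choose g hg using hch
  refine Function.Injective.countable (f := g) ?_
  intro a b hab
  apply Subtype.ext
  apply Units.ext
  rw [← hg a, ← hg b, hab]

/-- `τ` is a partial section on the group `G` of values -/
structure PS (G : Subgroup P.ValueGroupˣ) (τ : P.ValueGroupˣ → Kˣ) : Prop where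
  mul : ∀ γ ∈ G, ∀ δ ∈ G, τ (γ * δ) = τ γ * τ δ
  val : ∀ γ ∈ G, P.valuation ((τ γ : Kˣ) : K) = (γ : P.ValueGroup)

theorem PS.one {G : Subgroup P.ValueGroupˣ} {τ : P.ValueGroupˣ → Kˣ} (h : PS P G τ) : τ 1 = 1 := by
  have := h.mul 1 G.one_mem 1 G.one_mem
  rw [mul_one] at this
  exact (left_eq_mul.mp this)

theorem extend (hSEC : S_SEC) (hC : CSat P) (H G : Subgroup P.ValueGroupˣ) (hHG : H ≤ G) (hG : Countable G)
    (hp : ∀ (γ : P.ValueGroupˣ) (m : ℕ), γ ∈ G → 0 < m → γ ^ m ∈ H → γ ∈ H) (τ : P.ValueGroupˣ → Kˣ)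
    (hτ : PS P H τ) : ∃ τ' : P.ValueGroupˣ → Kˣ, PS P G τ' ∧ ∀ γ ∈ H, τ' γ = τ γ := by
  classical
  obtain ⟨t, ht1, ht2⟩ := hSEC K P hC G hG (H.subgroupOf G) (by
      intro γ m hm h
      rw [Subgroup.mem_subgroupOf] at h ⊢
      exact hp γ m γ.2 hm (by simpa using h)) G.subtype
    { toFun := fun h => τ ((h : G) : P.ValueGroupˣ)
      map_one' := by
        change τ 1 = 1
        exact hτ.one P
      map_mul' := by
        intro a b
        exact hτ.mul _ (Subgroup.mem_subgroupOf.mp a.2) _ (Subgroup.mem_subgroupOf.mp b.2) }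
    (by
      intro h
      exact hτ.val _ (Subgroup.mem_subgroupOf.mp h.2))
  refine ⟨fun γ => if h : γ ∈ G then t ⟨γ, h⟩ else 1, ⟨?_, ?_⟩, ?_⟩
  · intro γ hγ δ hδ
    simp only [dif_pos hγ, dif_pos hδ, dif_pos (G.mul_mem hγ hδ)]
    rw [← map_mul]
    rfl
  · intro γ hγ
    simp only [dif_pos hγ]
    exact ht2 ⟨γ, hγ⟩
  · intro γ hγ
    simp only [dif_pos (hHG hγ)]
    exact ht1 ⟨⟨γ, hHG hγ⟩, Subgroup.mem_subgroupOf.mpr hγ⟩

/-- a stage -/
structure Good (p : Subfield K × (P.ValueGroupˣ → Kˣ)) : Prop where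
  cnt : Countable p.1
  hc : HC P p.1
  pure : PureIn P p.1
  ps : PS P (VG P p.1) p.2

/-- the relation between a stage and the next one -/
structure Nxt (p q : Subfield K × (P.ValueGroupˣ → Kˣ)) : Prop where
  le : p.1 ≤ q.1
  ext : ∀ γ ∈ VG P p.1, q.2 γ = p.2 γ
  mem : ∀ γ ∈ VG P p.1, ((p.2 γ : Kˣ) : K) ∈ q.1

/-- start or step -/
theorem stage (hSEC : S_SEC) (hCLOS : S_CLOS) (hen : HenselianLocalRing P) (hC : CSat P)
    (H : Subgroup P.ValueGroupˣ) (τ : P.ValueGroupˣ → Kˣ) (hτ : PS P H τ)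
    (hp : ∀ (γ : P.ValueGroupˣ) (m : ℕ), 0 < m → γ ^ m ∈ H → γ ∈ H)
    (S : Set K) (hS : S.Countable) (hHS : ∀ γ ∈ H, ∃ x ∈ S, P.valuation x = (γ : P.ValueGroup)) :
    ∃ p : Subfield K × (P.ValueGroupˣ → Kˣ), Good P p ∧ (∀ x ∈ S, x ∈ p.1) ∧ ∀ γ ∈ H, p.2 γ = τ γ := by
  have hS' : (insert (0 : K) S).Countable := hS.insert 0
  obtain ⟨A, hA⟩ := hS'.exists_eq_range ⟨0, Set.mem_insert _ _⟩
  obtain ⟨E, h1, h2, h3, h4⟩ := hCLOS K P hen A
  have hSE : ∀ x ∈ S, x ∈ E := by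
    intro x hx
    have : x ∈ Set.range A := by
      rw [← hA]; exact Set.mem_insert_of_mem _ hx
    obtain ⟨n, rfl⟩ := this
    exact h2 n
  have hHG : H ≤ VG P E := by
    intro γ hγ
    obtain ⟨x, hx, hxγ⟩ := hHS γ hγ
    exact ⟨x, hSE x hx, hxγ⟩
  obtain ⟨τ', h5, h6⟩ := extend P hSEC hC H (VG P E) hHG (VG_countable P E h1)
    (fun γ m _ hm h => hp γ m hm h) τ hτ
  exact ⟨(E, τ'), ⟨h1, h3, h4, h5⟩, hSE, h6⟩

theorem PureIn_unit (E : Subfield K) (hE : PureIn P E) (γ : P.ValueGroupˣ) (m : ℕ) (hm : 0 < m)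
    (h : γ ^ m ∈ VG P E) : γ ∈ VG P E := by
  obtain ⟨x, hx, hxγ⟩ := h
  obtain ⟨y, hy, hyγ⟩ := hE (γ : P.ValueGroup) m hm ⟨x, hx, by rw [hxγ, Units.val_pow_eq_pow_val]⟩
  exact ⟨y, hy, hyγ⟩

theorem step (hSEC : S_SEC) (hCLOS : S_CLOS) (hen : HenselianLocalRing P) (hC : CSat P)
    (p : Subfield K × (P.ValueGroupˣ → Kˣ)) (hp : Good P p) :
    ∃ q, Good P q ∧ Nxt P p q := by
  obtain ⟨q, h1, h2, h3⟩ := stage P hSEC hCLOS hen hC (VG P p.1) p.2 hp.ps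
    (fun γ m hm h => PureIn_unit P p.1 hp.pure γ m hm h)
    ((p.1 : Set K) ∪ ((fun γ : VG P p.1 => ((p.2 γ : Kˣ) : K)) '' Set.univ)) (by
      have := hp.cnt
      have := VG_countable P p.1 hp.cnt
      refine Set.Countable.union ?_ ?_
      · exact Set.countable_coe_iff.mp hp.cnt
      · exact (Set.countable_univ).image _)
    (by
      rintro γ ⟨x, hx, hxγ⟩
      exact ⟨x, Or.inl hx, hxγ⟩)
  refine ⟨q, h1, ⟨fun x hx => h2 x (Or.inl hx), h3, ?_⟩⟩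
  intro γ hγ
  exact h2 _ (Or.inr ⟨⟨γ, hγ⟩, Set.mem_univ _, rfl⟩)

/-- the union -/
theorem limit (E : ℕ → Subfield K) (τ : ℕ → P.ValueGroupˣ → Kˣ) (hg : ∀ n, Good P (E n, τ n))
    (hn : ∀ n, Nxt P (E n, τ n) (E (n + 1), τ (n + 1))) :
    ∃ (E' : Subfield K) (τ' : P.ValueGroupˣ → Kˣ), Good P (E', τ') ∧ (∀ γ ∈ VG P E', ((τ' γ : Kˣ) : K) ∈ E') ∧
      E 0 ≤ E' ∧ ∀ γ ∈ VG P (E 0), τ' γ = τ 0 γ := by
  classical
  have hmono : Monotone E := monotone_nat_of_le_succ (fun n => (hn n).le)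
  have hdir : Directed (· ≤ ·) E := hmono.directed_le
  have hmem : ∀ x : K, x ∈ (⨆ n, E n) ↔ ∃ n, x ∈ E n := fun x => Subfield.mem_iSup_of_directed hdir
  have hle : ∀ n, E n ≤ ⨆ n, E n := fun n => le_iSup E n
  have hext : ∀ n m, n ≤ m → ∀ γ ∈ VG P (E n), τ m γ = τ n γ := by
    intro n m hnm
    induction m, hnm using Nat.le_induction with
    | base => intro γ _; rfl
    | succ m hm ih =>
      intro γ hγ
      have h1 : τ (m + 1) γ = τ m γ := (hn m).ext γ (VG_mono P (hmono hm) hγ)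
      rw [h1, ih γ hγ]
  have hVG : ∀ γ ∈ VG P (⨆ n, E n), ∃ n, γ ∈ VG P (E n) := by
    rintro γ ⟨x, hx, hxγ⟩
    obtain ⟨n, hxn⟩ := (hmem x).mp hx
    exact ⟨n, x, hxn, hxγ⟩
  let τ' : P.ValueGroupˣ → Kˣ := fun γ => if h : ∃ n, γ ∈ VG P (E n) then τ h.choose γ else 1
  have hτ' : ∀ n, ∀ γ ∈ VG P (E n), τ' γ = τ n γ := by
    intro n γ hγ
    have h : ∃ n, γ ∈ VG P (E n) := ⟨n, hγ⟩
    have h1 : τ' γ = τ h.choose γ := dif_pos h
    rw [h1]
    rcases le_total n h.choose with h2 | h2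
    · exact hext _ _ h2 γ hγ
    · exact (hext _ _ h2 γ h.choose_spec).symm
  refine ⟨⨆ n, E n, τ', ⟨?_, ?_, ?_, ⟨?_, ?_⟩⟩, ?_, hle 0, hτ' 0⟩
  · -- countable
    have h1 : (((⨆ n, E n : Subfield K) : Set K)) ⊆ ⋃ n, (E n : Set K) := by
      intro x hx
      obtain ⟨n, hxn⟩ := (hmem x).mp hx
      exact Set.mem_iUnion.mpr ⟨n, hxn⟩
    have h2 : (⋃ n, (E n : Set K)).Countable :=
      Set.countable_iUnion (fun n => Set.countable_coe_iff.mp (hg n).cnt)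
    exact Set.countable_coe_iff.mpr (h2.mono h1)
  · -- HC
    intro f hf hfc a₀ ha₀ h1 h2
    have h3 : ∃ N, ∀ i, ((f.coeff i : P) : K) ∈ E N := by
      have h4 : ∀ i, ∃ n, ((f.coeff i : P) : K) ∈ E n := fun i => (hmem _).mp (hfc i)
      choose n hn' using h4
      refine ⟨(Finset.range (f.natDegree + 1)).sup n, ?_⟩
      intro i
      by_cases hi : i ≤ f.natDegree
      · exact hmono (Finset.le_sup (f := n) (Finset.mem_range.mpr (by omega))) (hn' i)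
      · rw [Polynomial.coeff_eq_zero_of_natDegree_lt (by omega)]
        exact Subfield.zero_mem _
    obtain ⟨N, hN⟩ := h3
    obtain ⟨M, hM⟩ := (hmem _).mp ha₀
    obtain ⟨a, ha, h5, h6⟩ := (hg (max N M)).hc f hf (fun i => hmono (le_max_left N M) (hN i)) a₀
      (hmono (le_max_right N M) hM) h1 h2
    exact ⟨a, hle _ ha, h5, h6⟩
  · -- PureIn
    rintro γ m hm ⟨x, hx, hxγ⟩
    obtain ⟨n, hxn⟩ := (hmem x).mp hx
    obtain ⟨y, hy, hyγ⟩ := (hg n).pure γ m hm ⟨x, hxn, hxγ⟩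
    exact ⟨y, hle _ hy, hyγ⟩
  · intro γ hγ δ hδ
    obtain ⟨n, hγn⟩ := hVG γ hγ
    obtain ⟨m, hδm⟩ := hVG δ hδ
    have h1 : γ ∈ VG P (E (max n m)) := VG_mono P (hmono (le_max_left n m)) hγn
    have h2 : δ ∈ VG P (E (max n m)) := VG_mono P (hmono (le_max_right n m)) hδm
    change τ' (γ * δ) = τ' γ * τ' δ
    rw [hτ' _ γ h1, hτ' _ δ h2, hτ' _ _ ((VG P (E (max n m))).mul_mem h1 h2)]
    exact (hg (max n m)).ps.mul γ h1 δ h2
  · intro γ hγ
    obtain ⟨n, hγn⟩ := hVG γ hγ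
    change P.valuation ((τ' γ : Kˣ) : K) = _
    rw [hτ' _ γ hγn]
    exact (hg n).ps.val γ hγn
  · intro γ hγ
    obtain ⟨n, hγn⟩ := hVG γ hγ
    rw [hτ' _ γ hγn]
    exact hle _ ((hn n).mem γ hγn)

end

theorem t_NICE : S_SEC → S_CLOS → S_HCH → S_NICE := by
  intro hSEC hCLOS hHCH F K _ _ OF P s i hF hs hP hi A
  classical
  -- the start
  let φ : OF.ValueGroupˣ →* P.ValueGroupˣ := Units.map (i.val : OF.ValueGroup →* P.ValueGroup)
  have hφ : ∀ γ, ((φ γ : P.ValueGroupˣ) : P.ValueGroup) = i.val (γ : OF.ValueGroup) := fun γ => rfl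
  have hφi : Function.Injective φ := by
    intro a b hab
    apply Units.ext
    apply i.val_strictMono.injective
    rw [← hφ, ← hφ, hab]
  let τ : P.ValueGroupˣ → Kˣ := fun γ => if h : ∃ δ, φ δ = γ then Units.map (i.f : F →* K) (s h.choose) else 1
  have hτ : ∀ δ, τ (φ δ) = Units.map (i.f : F →* K) (s δ) := by
    intro δ
    have h : ∃ δ', φ δ' = φ δ := ⟨δ, rfl⟩
    have h1 : τ (φ δ) = Units.map (i.f : F →* K) (s h.choose) := dif_pos h
    rw [h1, hφi h.choose_spec]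
  have hPS : PS P φ.range τ := by
    refine ⟨?_, ?_⟩
    · rintro _ ⟨a, rfl⟩ _ ⟨b, rfl⟩
      rw [← map_mul, hτ, hτ, hτ, map_mul, map_mul]
    · rintro _ ⟨a, rfl⟩
      rw [hτ, hφ]
      change P.valuation (i.f ((s a : Fˣ) : F)) = _
      rw [← i.val_valuation, hs]
  obtain ⟨p₀, hg₀, hm₀, ht₀⟩ := stage P hSEC hCLOS hP.hen hP.sat φ.range τ hPS (by
      rintro γ m hm ⟨δ, hδ⟩
      obtain ⟨ε, hε⟩ := hi (γ : P.ValueGroup) m hm ⟨δ, by rw [← hφ, hδ, Units.val_pow_eq_pow_val]⟩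
      have hε0 : ε ≠ 0 := by
        rintro rfl
        rw [map_zero] at hε
        exact γ.ne_zero hε.symm
      exact ⟨Units.mk0 ε hε0, Units.ext (by rw [hφ]; exact hε)⟩)
    (Set.range i.f ∪ Set.range A) ((Set.countable_range _).union (Set.countable_range _)) (by
      rintro _ ⟨δ, rfl⟩
      refine ⟨i.f ((s δ : Fˣ) : F), Or.inl ⟨_, rfl⟩, ?_⟩
      rw [← i.val_valuation, hs, hφ])
  -- the sequence of stages
  have hstep := step P hSEC hCLOS hP.hen hP.sat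
  let T := {p : Subfield K × (P.ValueGroupˣ → Kˣ) // Good P p}
  let nx : T → T := fun p => ⟨(hstep p.1 p.2).choose, (hstep p.1 p.2).choose_spec.1⟩
  have hnx : ∀ p : T, Nxt P p.1 (nx p).1 := fun p => (hstep p.1 p.2).choose_spec.2
  let S : ℕ → T := fun n => Nat.rec ⟨p₀, hg₀⟩ (fun _ p => nx p) n
  obtain ⟨E, σ, hE, hσE, hE0, hσ0⟩ := limit P (fun n => (S n).1.1) (fun n => (S n).1.2) (fun n => (S n).2)
    (fun n => hnx (S n))
  have hE0' : p₀.1 ≤ E := hE0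
  have hps : PS P (VG P E) σ := hE.ps
  have hσ0' : ∀ γ ∈ VG P p₀.1, σ γ = p₀.2 γ := hσ0
  have hfE : ∀ x : F, i.f x ∈ E := fun x => hE0' (hm₀ _ (Or.inl ⟨x, rfl⟩))
  -- the valued field
  let O' : ValuationSubring E := P.comap E.subtype
  let ι : VEmb OF O' := ⟨i.f.codRestrict E hfE, fun x => i.mem x⟩
  let i' : VEmb O' P := ⟨E.subtype, fun x => Iff.rfl⟩
  let ψ : O'.ValueGroupˣ →* P.ValueGroupˣ := Units.map (i'.val : O'.ValueGroup →* P.ValueGroup)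
  have hψ : ∀ γ, ((ψ γ : P.ValueGroupˣ) : P.ValueGroup) = i'.val (γ : O'.ValueGroup) := fun γ => rfl
  have hψE : ∀ γ, ψ γ ∈ VG P E := by
    intro γ
    refine ⟨i'.f (pre O' γ), (pre O' (γ : O'.ValueGroup)).2, ?_⟩
    rw [← i'.val_valuation, pre_spec, hψ]
  let s' : O'.ValueGroupˣ →* Eˣ :=
    { toFun := fun γ => Units.mk0 ⟨((σ (ψ γ) : Kˣ) : K), hσE _ (hψE γ)⟩ (by
        intro h
        exact (σ (ψ γ)).ne_zero (congrArg Subtype.val h))
      map_one' := by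
        apply Units.ext
        apply Subtype.ext
        change ((σ (ψ 1) : Kˣ) : K) = 1
        rw [map_one, hps.one P, Units.val_one]
      map_mul' := by
        intro a b
        apply Units.ext
        apply Subtype.ext
        change ((σ (ψ (a * b)) : Kˣ) : K) = ((σ (ψ a) : Kˣ) : K) * ((σ (ψ b) : Kˣ) : K)
        rw [map_mul, hps.mul _ (hψE a) _ (hψE b), Units.val_mul] }
  have hs' : ∀ γ, (((s' γ : Eˣ) : E) : K) = ((σ (ψ γ) : Kˣ) : K) := fun γ => rfl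
  refine ⟨E, inferInstance, O', s', ι, i', hE.cnt, hHCH K P E hE.hc, ?_, fun x => rfl, ?_, ?_, ?_⟩
  · intro γ
    apply i'.val_strictMono.injective
    rw [i'.val_valuation]
    change P.valuation (((s' γ : Eˣ) : E) : K) = _
    rw [hs', hps.val _ (hψE γ), hψ]
  · intro γ
    apply Subtype.ext
    rw [hs']
    change ((σ (ψ (Units.map (ι.val : OF.ValueGroup →* O'.ValueGroup) γ)) : Kˣ) : K) = i.f ((s γ : Fˣ) : F)
    have h1 : ψ (Units.map (ι.val : OF.ValueGroup →* O'.ValueGroup) γ) = φ γ := by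
      apply Units.ext
      rw [hψ, hφ]
      change i'.val (ι.val (γ : OF.ValueGroup)) = i.val (γ : OF.ValueGroup)
      rw [← pre_spec OF (γ : OF.ValueGroup), ι.val_valuation, i'.val_valuation, i.val_valuation]
      rfl
    have h2 : φ γ ∈ VG P p₀.1 := by
      refine ⟨i.f ((s γ : Fˣ) : F), hm₀ _ (Or.inl ⟨_, rfl⟩), ?_⟩
      rw [← i.val_valuation, hs, hφ]
    rw [h1, hσ0' _ h2, ht₀ _ ⟨γ, rfl⟩, hτ]
    rfl
  · intro n
    exact ⟨⟨A n, hE0' (hm₀ _ (Or.inr ⟨n, rfl⟩))⟩, rfl⟩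
  · rintro γ m hm ⟨δ, hδ⟩
    obtain ⟨x, hx, hxγ⟩ := hE.pure γ m hm ⟨i'.f (pre O' δ), (pre O' δ).2, by
      rw [← i'.val_valuation, pre_spec, hδ]⟩
    exact ⟨O'.valuation ⟨x, hx⟩, by rw [i'.val_valuation]; exact hxγ⟩

end Pool.Agent.U317.AKNice
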